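import Pool.Agent.ATZ.Stmts2
import Pool.Agent.Helper15_AT6.IXB

/-!
# Squad ATZ, module IZB: the order of `E`
-/

open scoped BigOperators

noncomputable section

namespace Pool.Agent.PP.TB.H64

open Pool.Agent.Helper51_AWC Pool.Agent.Helper79_WRA Pool.Agent.PP Pool.Agent.PP.KF
open Pool.Agent.PP.K9 Pool.Agent.PP.K9.H97 Pool.Agent.PP.H75 Pool.Agent.PP.T3 Pool.Agent.PP.T2
open Pool.Agent.PP.T5

attribute [local instance] Ideal.Quotient.field

/-- IZB -/
theorem izb (zcp : ZcpStmt) (hw : T2.PwuStmt) : IzbStmt := by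
  intro ℓ _ M _ hM G _ _ e V Z γ b h r hr
  obtain ⟨-, -, -, -, hi, -, -⟩ := zcp ℓ M hM G e V Z γ b h
  have hT : Tg V γ ≤ Subgroup.normalizer (Z : Set G) := by
    intro t ht
    rw [Subgroup.mem_normalizer_iff]
    intro z
    constructor
    · exact fun hz => h.nrm t ht z hz
    · intro hz
      have h1 := h.nrm t⁻¹ (inv_mem ht) _ hz
      rw [inv_inv] at h1
      have h2 : t⁻¹ * (t * z * t⁻¹) * t = z := by group
      rw [h2] at h1
      exact h1
  have hab : ∀ x ∈ Z, ∀ y ∈ Z, x * y = y * x := fun x hx y hy => h.cen y hy x (h.le hx)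
  have hiz : iz V Z γ = (Subgroup.centralizer (Z : Set G)).relIndex (Tg V γ) :=
    Subgroup.inf_relIndex_right _ _
  rw [hiz] at hi ⊢
  have h3 := T6.H15.grp Z (Tg V γ) hT hab (h.tp.pg.to_le h.le) hw hi hr
  rw [sq] at h3
  exact h3

end Pool.Agent.PP.TB.H64
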